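import Pool.Agent.WPE.FIN
import Pool.Agent.WPQ.ASE
import Pool.Agent.WPE.DG
import Pool.Agent.WPE.KDS
import Pool.Agent.WPE.MIZ
import Pool.Agent.WPE.FBW

/-!
# Q1 for all root lattices of type `A`, `D`, `E` and all `p ≥ 2`

`ADE l A` (`Pool/Agent/WPE/FNE.lean`) says that `A` is the Cartan matrix (the Gram matrix of the
simple roots) of `A_l` (`l ≥ 1`; `CartanMatrix.A l` is the `l × l` matrix), `D_l` (`l ≥ 4`), `E_6`,
`E_7` or `E_8`.  The underlying space `VL` of `V_L`, `L = √p Q`, the modes, the vertex operators, the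
common kernel `W A p` of the short screenings, homogeneous vectors and strong generation are defined
in `Pool/Agent/WPQ/Defs.lean`, the conformal vector and primary vectors in
`Pool/Agent/WPQ/DefsB.lean`.  `LongKernel ε`, `FreeGenerators` and `ExponentsSucc` are defined in
`Pool/Agent/WPE/FNE.lean`: `LongKernel ε` is the common kernel on the Heisenberg Fock space `M(1)`
(the vectors of charge `0`) of the long screenings `e^{√p α_j}_0`.  The simple Lie algebra `g` is
defined in `Pool/Agent/WPE/RDC.lean`, the BRST complex of its quantum Drinfeld-Sokolov reduction and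
the free field realisation in `Pool/Agent/WPE/RDB.lean`.

For every such lattice `Q` and every `p ≥ 2`:

* `W_k(g) = LongKernel ε` for `k = p - h^∨`: the simple Lie algebra `g` exists, its Killing form is
  `2 h^∨` times the normalised form, the BRST complex `C = V^k(g) ⊗ Λ` of level `k` exists, and for
  every such complex `Q² = 0` and there is a Miura map `Φ : C → M(1)`, unique on the cocycles of ghost
  number `0`; it induces a bijection of `W_k(g) = H^0(C, Q)` onto `LongKernel ε`.  It is an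
  isomorphism for the products: every class of `H^0(C, Q)` has a representative `x ∈ V`; there is
  exactly one vertex operator `a(z) = ∑ a(n) z^(-n-1)` of `x` on the vertex algebra `C` (defined in
  `Pool/Agent/WPE/RDV.lean`), it commutes with `Q` and induces the product with the class of `x`
  on `H^0(C, Q)`, and `Φ(a(n) z) = Φ(x)_n Φ(z)`;
* a vector of `M(1)` killed by the long screenings is killed by the short ones: `LongKernel ε` is
  contained in `W(p)_Q`;
* `W(p)_Q` contains `ω` and finitely many homogeneous primary vectors `S` such that every set `T` of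
  homogeneous vectors with `S ⊆ T ⊆ W(p)_Q` whose monomials span at least `LongKernel ε` strongly
  generates `W(p)_Q`;
* `LongKernel ε` is strongly and freely generated by `l` homogeneous vectors `w_i` of weights `d_i`,
  where the `d_i - 1` are the exponents of `g` (for every choice of the orders the ordered monomials
  are a basis); `ω` is a combination of the `w_i`, and the `w_i` together with `S` strongly generate
  `W(p)_Q`.

Hence this is the assertion of Q1 for all `(Q, p)`.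
-/

namespace Pool.Agent.Results.MP_c42e9d_al.AllTypes

open WPQ WPE

/-- `W_k(g) = H^0(C, Q)`, where `X` is the BRST complex on `C`, is the common kernel `LongKernel ε`
of the long screenings by the Miura map `Φ`, and `Φ` respects all products. -/
def MiuraIso {l : ℕ} {A : Matrix (Fin l) (Fin l) ℤ} {g : Type} [LieRing g] [LieAlgebra ℂ g]
    {G : RD.Chevalley A g} {k : ℂ} {C : Type} [AddCommGroup C] [Module ℂ C] (p : ℕ)
    (X : RD.Brst G k C) : Prop :=
  (∀ v, X.Q (X.Q v) = 0) ∧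
  (∀ z, X.Ghost 0 z → X.Q z = 0 →
    ∃ x ∈ X.V, X.Q x = 0 ∧ ∃ y, X.Ghost (-1) y ∧ z = x + X.Q y) ∧
  ∃ Φ : C →ₗ[ℂ] Fock (Fin l), X.IsMiura p Φ ∧
    (∀ Φ' : C →ₗ[ℂ] Fock (Fin l), X.IsMiura p Φ' →
      ∀ z, X.Ghost 0 z → X.Q z = 0 → Φ' z = Φ z) ∧
    ∀ ε : Cocycle A p,
      (∀ f : VL (Fin l), f ∈ LongKernel ε ↔
        ∃ z, X.Ghost 0 z ∧ X.Q z = 0 ∧ (Finsupp.single 0 (Φ z) : VL (Fin l)) = f) ∧
      (∀ z, X.Ghost 0 z → X.Q z = 0 → Φ z = 0 → ∃ y, X.Ghost (-1) y ∧ z = X.Q y) ∧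
      ∀ x ∈ X.V, X.Q x = 0 → ∃ a : ℤ → C →ₗ[ℂ] C, X.IsVertexOperator x a ∧
        (∀ a', X.IsVertexOperator x a' → a' = a) ∧
        (∀ n v, X.Q (a n v) = a n (X.Q v)) ∧
        (∀ n q v, X.Ghost q v → X.Ghost q (a n v)) ∧
        ∀ n z, X.Ghost 0 z → X.Q z = 0 →
          (Finsupp.single 0 (Φ (a n z)) : VL (Fin l)) =
            mode ε (Finsupp.single 0 (Φ x)) n (Finsupp.single 0 (Φ z))

/-- `w` and `S` generate `W(p)_Q`: the last two items above. -/
def Generation {l : ℕ} {A : Matrix (Fin l) (Fin l) ℤ} {p : ℕ} (ε : Cocycle A p) : Prop :=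
  ∃ S : Finset (VL (Fin l)),
    (∀ u ∈ S, u ∈ W A p ∧ (∃ n, IsHomog A p n u) ∧ IsPrimary ε u) ∧
    (∀ T : Set (VL (Fin l)), (S : Set (VL (Fin l))) ⊆ T →
      T ⊆ (W A p : Set (VL (Fin l))) → (∀ u ∈ T, ∃ n, IsHomog A p n u) →
      (LongKernel ε : Set (VL (Fin l))) ⊆ Submodule.span ℂ {v | Monomial ε T v} →
      StronglyGenerates ε T (W A p)) ∧
    ∃ (w : Fin l → VL (Fin l)) (d : Fin l → ℕ), FreeGenerators ε w d ∧
      ExponentsSucc A d ∧ omegaV A p ∈ Submodule.span ℂ (Set.range w) ∧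
      StronglyGenerates ε (Set.range w ∪ (S : Set (VL (Fin l)))) (W A p)

theorem result :
    ∀ (l : ℕ) (A : Matrix (Fin l) (Fin l) ℤ), ADE l A → ∀ p : ℕ, 2 ≤ p →
      IsADE A ∧ Nonempty (Cocycle A p) ∧ omegaV A p ∈ W A p ∧
      (∃ (g : Type) (_ : LieRing g) (_ : LieAlgebra ℂ g), Nonempty (RD.Chevalley A g)) ∧
      (∃ hv : ℂ, ∀ (g : Type) [LieRing g] [LieAlgebra ℂ g] (G : RD.Chevalley A g),
        (∀ x y : g, killingForm ℂ g x y = 2 * hv * G.form x y) ∧
        (∃ (C : Type) (_ : AddCommGroup C) (_ : Module ℂ C),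
          Nonempty (RD.Brst G ((p : ℂ) - hv) C)) ∧
        ∀ (C : Type) [AddCommGroup C] [Module ℂ C] (X : RD.Brst G ((p : ℂ) - hv) C),
          MiuraIso p X) ∧
      ∀ ε : Cocycle A p,
        (∀ u : VL (Fin l), ∃! a, IsVertexOperator ε u a) ∧ LongKernel ε ≤ W A p ∧
        Generation ε := by
  have hK : ∀ (ι : Type) [Fintype ι] [DecidableEq ι] (A : Matrix ι ι ℤ), IsADE A → ∀ p : ℕ,
      2 ≤ p → KDSOut A p := fun ι _ _ A hA p hp => kds hA hp
  intro l A hAl p hp
  obtain ⟨hA, hc, hw, hm⟩ := fin_main tl1 tl7a tl8 hK (fun l hl => dc_ade l hl) en0.1 en0.2.1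
    en0.2.2 (pgD fun l hl p hp => hK _ _ (dc_ade l hl) p hp)
    (pg_E6 (fun p hp => hK _ _ en0.1 p hp) fun p hp => astar en0.1 hp)
    (pg_E7 (fun p hp => hK _ _ en0.2.1 p hp) fun p hp => astar en0.2.1 hp)
    (pg_E8 (fun p hp => hK _ _ en0.2.2 p hp) fun p hp => astar en0.2.2 hp) l A hAl p hp
  have hL : ∀ ε : Cocycle A p, (LongKernel ε : Set (VL (Fin l))) = Wk ε := fun ε =>
    Set.ext fun v => ⟨fun h => ⟨(hm ε).2.1 h, h.1, h.2⟩, fun h => ⟨h.2.1, h.2.2⟩⟩
  have hC : Conn A := by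
    cases hAl with
    | A l hl => exact conn_A l hl
    | D l hl => exact conn_D l hl
    | E6 => exact conn_E6
    | E7 => exact conn_E7
    | E8 => exact conn_E8
  obtain ⟨hv, hV⟩ := RD.exists_hv hA hC
  refine ⟨hA, hc, hw, RD.chevalley_exists hA, ⟨hv, fun g _ _ G => ⟨fun x y => hV g G x y, ?_⟩⟩, hm⟩
  obtain ⟨h1, h2⟩ := RD.brst hA G hp hv fun x y => hV g G x y
  refine ⟨h1, fun C _ _ X => ?_⟩
  obtain ⟨h3, Φ, h4, h5, h6⟩ := h2 C X
  have h7 := fun ε => RD.brst_vo hA G hp hv (fun x y => hV g G x y) X h4 ε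
  refine ⟨h3, (h7 hc.some).1, Φ, h4, h5, fun ε => ⟨fun f => ?_, (h6 ε).2, (h7 ε).2⟩⟩
  rw [← (h6 ε).1 f, ← SetLike.mem_coe, hL ε, SetLike.mem_coe]

end Pool.Agent.Results.MP_c42e9d_al.AllTypes
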