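import Pool.Agent.WPQ.FI2
import Pool.Agent.WPQ.PV4

/-!
# Q1 for all `Q` of rank at least `2` and all `p` outside an explicit sparse set

`A` is the Gram matrix of the simple roots of `Q` (`WPQ.IsADE`).  The underlying space, the modes,
the vertex operators, the common kernel `W A p` of the short screenings, homogeneous vectors and
strong generation are defined in `Pool/Agent/WPQ/Defs.lean`; the conformal vector, primary vectors
and the exceptional set in `Pool/Agent/WPQ/DefsB.lean`.

For every such `Q` there is a constant `C > 0` such that for every `p` outside the set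
`Exc C = {p | p ≤ C or p ∣ C (r² - 1) for some r ≥ 2 with r² ≤ C p}` the algebra `W(p)_Q` contains
`ω` and finitely many homogeneous primary vectors `S` such that every set `T` with
`{ω} ∪ S ⊆ T ⊆ W(p)_Q` strongly generates `W(p)_Q` (take for `T` the union of `S` and the
generators of the principal `W`-algebra: this is the assertion of Q1 for the pair `(Q, p)`).
The exceptional set has at most `K N^(1/2+δ)` elements below `N`, for every `δ > 0`.
-/

namespace Pool.Agent.Results.MP_c42e9d_al.PrimaryGeneration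

open WPQ

theorem result :
    ∀ (ι : Type) [Fintype ι] [DecidableEq ι] (A : Matrix ι ι ℤ), IsADE A → 2 ≤ Fintype.card ι →
      ∃ C : ℕ, 0 < C ∧
        (∀ p : ℕ, p ∉ Exc C →
          Nonempty (Cocycle A p) ∧ omegaV A p ∈ W A p ∧
          ∀ ε : Cocycle A p,
            (∀ u : VL ι, ∃! a, IsVertexOperator ε u a) ∧
            ∃ S : Finset (VL ι),
              (∀ u ∈ S, u ∈ W A p ∧ (∃ n, IsHomog A p n u) ∧ IsPrimary ε u) ∧
              ∀ T : Set (VL ι), omegaV A p ∈ T → (S : Set (VL ι)) ⊆ T →
                T ⊆ (W A p : Set (VL ι)) → StronglyGenerates ε T (W A p)) ∧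
        ∀ δ : ℝ, 0 < δ → ∃ K : ℝ, ∀ N : ℕ, 1 ≤ N →
          (({p : ℕ | p < N ∧ p ∈ Exc C}.ncard : ℕ) : ℝ) ≤ K * (N : ℝ) ^ (1 / 2 + δ) := by
  intro ι _ _ A hA hl
  obtain ⟨C, hC, hB, hN⟩ := WPQ.mainB ι A hA hl
  refine ⟨C, hC, fun p hp => ?_, hN⟩
  have hp2 : 2 ≤ p := by
    by_contra h
    exact hp (Or.inl (by omega))
  obtain ⟨hc, hm⟩ := WPQ.main ι A hA p hp2
  exact ⟨hc, (hB p hp).1, fun ε => ⟨(hm ε).1, (hB p hp).2 ε⟩⟩

end Pool.Agent.Results.MP_c42e9d_al.PrimaryGeneration
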