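import Pool.Agent.WPQ.FI2

/-!
# `W(p)_Q` is strongly finitely generated, for every simply laced root lattice `Q` and every `p ≥ 2`

`A` is the Gram matrix of the simple roots of `Q` (`WPQ.IsADE`).  The underlying space, the modes,
the vertex operators, the common kernel `W A p` of the short screenings, the conformal weights and
strong generation are defined in `Pool/Agent/WPQ/Defs.lean`.

The theorem says: cocycles exist, and for each of them
* every `u ∈ V_L` has exactly one vertex operator (so `mode ε u n` are the modes of `Y(u, z)`),
* `W(p)_Q` is closed under all modes of its elements (it is a vertex subalgebra),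
* there is a finite set `S` of homogeneous elements of `W(p)_Q` such that every set `T` with
  `S ⊆ T ⊆ W(p)_Q` strongly generates `W(p)_Q`; in particular one may take for `T` the union of `S`
  and any generators of the principal `W`-algebra inside `W(p)_Q`.
-/

namespace Pool.Agent.Results.MP_c42e9d_al.StrongGeneration

open WPQ

theorem result :
    ∀ (ι : Type) [Fintype ι] [DecidableEq ι] (A : Matrix ι ι ℤ), IsADE A →
      ∀ p : ℕ, 2 ≤ p → Nonempty (Cocycle A p) ∧ ∀ ε : Cocycle A p,
        (∀ u : VL ι, ∃! a, IsVertexOperator ε u a) ∧
        (∀ u ∈ W A p, ∀ v ∈ W A p, ∀ n : ℤ, mode ε u n v ∈ W A p) ∧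
        ∃ S : Finset (VL ι), (∀ u ∈ S, u ∈ W A p ∧ ∃ n, IsHomog A p n u) ∧
          ∀ T : Set (VL ι), (S : Set (VL ι)) ⊆ T → T ⊆ (W A p : Set (VL ι)) →
            StronglyGenerates ε T (W A p) :=
  WPQ.main

end Pool.Agent.Results.MP_c42e9d_al.StrongGeneration
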